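import Pool.Agent.H18.TE.Targets
import Pool.Agent.H38.TD.RL1
import Pool.Agent.H8.TD.Basic
import Pool.Agent.H60.TD.SL1
import Pool.Agent.H18.HIT.PN

/-!
# Row LGL of the board bkh_modules: growth of the heights on a totally invariant curve
-/

set_option autoImplicit false

open MvPolynomial
open Pool.Agent.H12.ZD (pmap v O Res DenseOrbit NoInv)
open Pool.Agent.H18.HIT
open Pool.Agent.H8.ZA (HFam Const NA sz)
open Pool.Agent.H8.TD
open Pool.Agent.H38.TD
open Pool.Agent.H18.TE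

namespace Pool.Agent.H74.BKH

/-! ## The function `lg` -/

section lg

variable {K : IntermediateField ℚ Qb}

theorem lgl_supp (F : HFam K) {x : Qb} (hx : x ≠ 0) :
    (Function.support fun i => Real.log (F.abv i x)).Finite :=
  (F.finite x hx).subset fun i hi h1 => hi (by simp only [h1, Real.log_one])

theorem lgl_mul (F : HFam K) {x y : Qb} (hx : x ≠ 0) (hy : y ≠ 0) :
    lg F (x * y) = lg F x + lg F y := by
  unfold lg
  rw [← finsum_add_distrib (lgl_supp F hx) (lgl_supp F hy)]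
  refine finsum_congr fun i => ?_
  rw [map_mul, Real.log_mul ((F.abv i).ne_zero hx) ((F.abv i).ne_zero hy)]

theorem lgl_pow (F : HFam K) {x : Qb} (hx : x ≠ 0) (m : ℕ) : lg F (x ^ m) = m * lg F x := by
  induction m with
  | zero =>
    unfold lg
    simp
  | succ m ih =>
    rw [pow_succ, lgl_mul F (pow_ne_zero m hx) hx, ih, Nat.cast_succ]
    ring

end lg

/-! ## Homogenization -/

section hev

theorem lgl_hev_map {k B B' : Type} [CommRing k] [CommRing B] [Algebra k B] [CommRing B']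
    [Algebra k B'] (f : B →ₐ[k] B') {N : ℕ} (R : Fin N → B) (δ : B) (D : ℕ) (q : Po N k) :
    f (hev R δ D q) = hev (fun i => f (R i)) (f δ) D q := by
  unfold hev
  simp only [map_sum, map_mul, map_pow, map_prod, AlgHom.commutes]

theorem lgl_hev_eq {k B : Type} [CommRing k] [CommRing B] [Algebra k B] {N : ℕ}
    (R r : Fin N → B) (δ : B) (D : ℕ) (q : Po N k) (hq : q.totalDegree ≤ D)
    (hR : ∀ i, R i = r i * δ) : hev R δ D q = δ ^ D * aeval r q := by
  unfold hev
  rw [aeval_def, eval₂_eq', Finset.mul_sum]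
  refine Finset.sum_congr rfl fun m hm => ?_
  have h1 : m.sum (fun _ e => e) = ∑ i, m i := Finsupp.sum_fintype _ _ fun _ => rfl
  have h2 : m.sum (fun _ e => e) ≤ D := (le_totalDegree hm).trans hq
  have h3 : ∏ i, R i ^ m i = δ ^ (m.sum fun _ e => e) * ∏ i, r i ^ m i := by
    rw [h1, ← Finset.prod_pow_eq_pow_sum, ← Finset.prod_mul_distrib]
    refine Finset.prod_congr rfl fun i _ => ?_
    rw [hR, mul_pow, mul_comm]
  have h4 : δ ^ D = δ ^ (D - m.sum fun _ e => e) * δ ^ (m.sum fun _ e => e) := by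
    rw [← pow_add, Nat.sub_add_cancel h2]
  rw [h3, h4]
  ring

theorem lgl_hev_hom {k : Type} [CommRing k] {N M : ℕ} (R : Fin N → Po M k) (δ : Po M k)
    (D e : ℕ) (q : Po N k) (hq : q.totalDegree ≤ D) (hR : ∀ i, (R i).IsHomogeneous e)
    (hδ : δ.IsHomogeneous e) : (hev R δ D q).IsHomogeneous (e * D) := by
  unfold hev
  refine IsHomogeneous.sum _ _ _ fun m hm => ?_
  have h1 : m.sum (fun _ e => e) = ∑ i, m i := Finsupp.sum_fintype _ _ fun _ => rfl
  have h2 : m.sum (fun _ e => e) ≤ D := (le_totalDegree hm).trans hq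
  have h3 : (∏ i, R i ^ m i).IsHomogeneous (∑ i, e * m i) :=
    IsHomogeneous.prod _ _ _ fun i _ => (hR i).pow (m i)
  have h4 : (δ ^ (D - m.sum fun _ e => e)).IsHomogeneous (e * (D - m.sum fun _ e => e)) :=
    hδ.pow _
  have h5 : (algebraMap k (Po M k) (coeff m q)).IsHomogeneous 0 := isHomogeneous_C _ _
  have h6 := (h5.mul h4).mul h3
  have h7 : 0 + e * (D - m.sum fun _ e => e) + ∑ i, e * m i = e * D := by
    rw [← Finset.mul_sum, ← h1, zero_add, ← mul_add, Nat.sub_add_cancel h2]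
  rwa [h7] at h6

end hev

/-! ## Degrees -/

theorem lgl_fin {k K : Type} [Field k] [Field K] [Algebra k K] (s : Set K) (hs : s.Finite)
    (hgen : IntermediateField.adjoin k s = ⊤) (htr : Algebra.trdeg k K ≤ 1) (y : K)
    (hy : Transcendental k y) : FiniteDimensional (IntermediateField.adjoin k {y}) K := by
  refine rl1_fin s hs hgen _ ?_
  have h1 : AlgebraicIndependent k (fun _ : Unit => y) :=
    (algebraicIndependent_unique_type_iff (ι := Unit)).2 hy
  have h2 : IsTranscendenceBasis k (fun _ : Unit => y) :=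
    h1.isTranscendenceBasis_of_trdeg_le_of_finite (by
      rw [Cardinal.mk_fintype]
      simpa using htr)
  have h3 := h2.isAlgebraic_field
  intro x _
  have h4 := h3.isAlgebraic x
  have h5 : Set.range (fun _ : Unit => y) = {y} := by
    ext z
    simp [eq_comm]
  rw [h5] at h4
  exact h4.isIntegral

theorem lgl_tr {k K : Type} [Field k] [Field K] [Algebra k K] (τ : K →ₐ[k] K) (n : ℕ) (y : K)
    (hy : Transcendental k y) : Transcendental k (τ^[n] y) := by
  induction n with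
  | zero => exact hy
  | succ n ih =>
    rw [Function.iterate_succ_apply']
    intro h
    exact ih ((isAlgebraic_algHom_iff τ τ.toRingHom.injective).1 h)

/-! ## The inequality for one coordinate -/

/-- the conclusion for one coordinate -/
def One (I : Ideal (Po 4 Qb)) (T : Tup 4 Qb) (n : ℕ) (i j : Fin 3) : Prop :=
  ∃ (p : Po 4 Qb) (D' m' : ℕ) (μ : ℝ), p.IsHomogeneous D' ∧ p ∉ I ∧
    ∀ (K : IntermediateField ℚ Qb) (F : HFam K), ∃ c : ℝ, ∀ y : Fin 4 → Qb,
      (∀ q ∈ I, eval y q = 0) → y 0 ≠ 0 → (pmap T)^[n] y 0 ≠ 0 → eval y p ≠ 0 →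
      12 * F.ht ![aff y i, 0, 0] + μ * (lg F (eval y p) -
        m' * lg F (y 0 * (pmap T)^[n] y 0)) ≤ F.ht ![aff ((pmap T)^[n] y) j, 0, 0] + c

/-- a constant coordinate -/
theorem lgl_const (I : Ideal (Po 4 Qb)) (hI : I.IsPrime) (T : Tup 4 Qb) (n : ℕ) (i j : Fin 3)
    (a : Qb) (ha : X i.succ - C a * X 0 ∈ I) : One I T n i j := by
  refine ⟨1, 0, 0, 0, isHomogeneous_one _ _, (Ideal.ne_top_iff_one I).1 hI.ne_top, ?_⟩
  intro K F
  refine ⟨12 * F.ht ![a, 0, 0], ?_⟩
  intro y hy hy0 _ _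
  have h1 := hy _ ha
  rw [map_sub, map_mul, eval_X, eval_C, eval_X] at h1
  have h2 : aff y i = a := by
    rw [aff, div_eq_iff hy0]
    exact sub_eq_zero.1 h1
  rw [h2, zero_mul, add_zero]
  have h3 := Pool.Agent.H8.ZA.ht_nonneg F ![aff ((pmap T)^[n] y) j, 0, 0]
  linarith

/-- a transcendental coordinate -/
theorem lgl_one (hKCL : T_KCL) (I : Ideal (Po 4 Qb)) (T : Tup 4 Qb) (D : ℕ)
    (hT : ∀ i, (T i).IsHomogeneous D) {L : Type} [Field L] [Algebra Qb L]
    (π : Po 4 Qb →ₐ[Qb] L) (hker : ∀ q, π q = 0 ↔ q ∈ I) (hx0 : π (X 0) ≠ 0)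
    (hcurve : ∃ y : Kx π, FiniteDimensional (IntermediateField.adjoin Qb {y}) (Kx π))
    (n : ℕ) (i j : Fin 3) (hdn : π (it T n 0) ≠ 0) (φ : Kx π)
    (hφ : (φ : L) = π (it T n j.succ) / π (it T n 0))
    (hu : Transcendental Qb (⟨xi π i.succ, xi_mem π _⟩ : Kx π)) (hψ : Transcendental Qb φ)
    (hdg1 : 1 ≤ dg Qb {(⟨xi π i.succ, xi_mem π _⟩ : Kx π)})
    (hdg : 117 * dg Qb {(⟨xi π i.succ, xi_mem π _⟩ : Kx π)} ≤ dg Qb {φ}) :
    One I T n i j := by
  set u : Kx π := ⟨xi π i.succ, xi_mem π _⟩ with hudef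
  let f0 : Po 2 Qb →ₐ[Qb] Kx π := aeval ![u, φ]
  let f : Po 2 Qb →ₐ[Qb] f0.range := f0.rangeRestrict
  have hfs : Function.Surjective f := f0.rangeRestrict_surjective
  have hf : ∀ P, ((f P : Kx π)) = aeval ![u, φ] P := fun P => rfl
  have hinj : Function.Injective (algebraMap f0.range (Kx π)) := Subtype.val_injective
  have h0 : algebraMap f0.range (Kx π) (f (X 0)) = u := by
    show ((f (X 0) : Kx π)) = u
    rw [hf, aeval_X]
    rfl
  have h1 : algebraMap f0.range (Kx π) (f (X 1)) = φ := by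
    show ((f (X 1) : Kx π)) = φ
    rw [hf, aeval_X]
    rfl
  have hu' : Transcendental Qb (f (X 0)) := by
    intro h
    apply hu
    rw [← h0]
    exact h.algebraMap
  have hψ' : Transcendental Qb (f (X 1)) := by
    intro h
    apply hψ
    rw [← h1]
    exact h.algebraMap
  obtain ⟨b, μ, -, hb0, hb⟩ := hKCL f0.range (Kx π) (f (X 0)) (f (X 1)) hinj hcurve hu' hψ'
  rw [h0, h1] at hb
  obtain ⟨P, rfl⟩ := hfs b
  -- the homogenization
  let δ : Po 4 Qb := X 0 * it T n 0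
  let Rr : Fin 2 → Po 4 Qb := ![X i.succ * it T n 0, it T n j.succ * X 0]
  have hδπ : π δ ≠ 0 := by
    rw [map_mul]
    exact mul_ne_zero hx0 hdn
  have hπ : ∀ Q : Po 2 Qb, π (hev Rr δ Q.totalDegree Q) =
      π δ ^ Q.totalDegree * ((f Q : Kx π) : L) := by
    intro Q
    rw [lgl_hev_map, lgl_hev_eq (fun k => π (Rr k)) (![xi π i.succ, π (it T n j.succ) /
      π (it T n 0)]) (π δ) Q.totalDegree Q le_rfl]
    · congr 1
      have h2 := MvPolynomial.aeval_algebraMap_apply L (![u, φ] : Fin 2 → Kx π) Q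
      rw [hf]
      have h3 : (fun k => algebraMap (Kx π) L ((![u, φ] : Fin 2 → Kx π) k)) =
          ![xi π i.succ, π (it T n j.succ) / π (it T n 0)] := by
        funext k
        fin_cases k
        · rfl
        · exact hφ
      rw [← h3]
      exact h2
    · intro k
      fin_cases k
      · show π (X i.succ * it T n 0) = xi π i.succ * π (X 0 * it T n 0)
        rw [map_mul, map_mul]
        unfold xi
        field_simp
      · show π (it T n j.succ * X 0) = π (it T n j.succ) / π (it T n 0) * π (X 0 * it T n 0)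
        rw [map_mul, map_mul]
        field_simp
  have hith := it_hom hT n
  have hδh : δ.IsHomogeneous (1 + D ^ n) := (isHomogeneous_X _ _).mul (hith 0)
  have hRh : ∀ k, (Rr k).IsHomogeneous (1 + D ^ n) := by
    intro k
    fin_cases k
    · exact (isHomogeneous_X _ _).mul (hith 0)
    · have h2 := (hith j.succ).mul (isHomogeneous_X Qb (0 : Fin 4))
      rw [add_comm] at h2
      exact h2
  have hev' : ∀ y : Fin 4 → Qb, y 0 ≠ 0 → (pmap T)^[n] y 0 ≠ 0 → ∀ Q : Po 2 Qb,
      eval y (hev Rr δ Q.totalDegree Q) = (y 0 * (pmap T)^[n] y 0) ^ Q.totalDegree *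
        aeval ![aff y i, aff ((pmap T)^[n] y) j] Q := by
    intro y hy0 hyn Q
    have h4 : ∀ l, eval y (it T n l) = (pmap T)^[n] y l := by
      intro l
      rw [← pmap_it]
      rfl
    have h2 := lgl_hev_map (aeval y : Po 4 Qb →ₐ[Qb] Qb) Rr δ Q.totalDegree Q
    have h5 : ∀ q : Po 4 Qb, (aeval y : Po 4 Qb →ₐ[Qb] Qb) q = eval y q := fun q => rfl
    rw [h5, lgl_hev_eq _ (![aff y i, aff ((pmap T)^[n] y) j]) _ Q.totalDegree Q le_rfl] at h2
    · rw [h2, h5]
      show eval y (X 0 * it T n 0) ^ _ * _ = _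
      rw [map_mul, eval_X, h4]
    · intro k
      fin_cases k
      · show eval y (X i.succ * it T n 0) = y i.succ / y 0 * eval y (X 0 * it T n 0)
        rw [map_mul, map_mul, eval_X, eval_X]
        field_simp
      · show eval y (it T n j.succ * X 0) = (pmap T)^[n] y j.succ / (pmap T)^[n] y 0 *
          eval y (X 0 * it T n 0)
        rw [map_mul, map_mul, eval_X, h4, h4]
        field_simp
  set m := P.totalDegree with hm
  refine ⟨hev Rr δ m P, (1 + D ^ n) * m, m,
    μ / (9 * dg Qb {u}), lgl_hev_hom _ _ _ _ _ le_rfl hRh hδh, ?_, ?_⟩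
  · rw [← hker, hπ]
    refine mul_ne_zero (pow_ne_zero _ hδπ) ?_
    intro h2
    apply hb0
    apply hinj
    rw [map_zero]
    exact Subtype.val_injective h2
  intro K' F
  obtain ⟨c, hc⟩ := hb K' F
  refine ⟨c / (9 * dg Qb {u}), ?_⟩
  intro y hy hy0 hyn hyp
  let g : Po 2 Qb →ₐ[Qb] Qb := aeval ![aff y i, aff ((pmap T)^[n] y) j]
  have hkerg : ∀ Q ∈ RingHom.ker f, g Q = 0 := by
    intro Q hQ
    have hQ0 : f Q = 0 := hQ
    have h2 : hev Rr δ Q.totalDegree Q ∈ I := by
      rw [← hker, hπ, hQ0]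
      simp
    have h3 := hy _ h2
    rw [hev' y hy0 hyn] at h3
    exact (mul_eq_zero.1 h3).resolve_left (pow_ne_zero _ (mul_ne_zero hy0 hyn))
  let ev : f0.range →ₐ[Qb] Qb := (Ideal.Quotient.liftₐ (RingHom.ker f) g hkerg).comp
    (Ideal.quotientKerAlgEquivOfSurjective hfs).symm.toAlgHom
  have hevf : ∀ Q, ev (f Q) = g Q := by
    intro Q
    have h2 : (Ideal.quotientKerAlgEquivOfSurjective hfs).symm (f Q) =
        Ideal.Quotient.mk (RingHom.ker f) Q := by
      rw [AlgEquiv.symm_apply_eq]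
      rfl
    show (Ideal.Quotient.liftₐ (RingHom.ker f) g hkerg)
      ((Ideal.quotientKerAlgEquivOfSurjective hfs).symm (f Q)) = g Q
    rw [h2]
    rfl
  have hval := hev' y hy0 hyn P
  have hgP : g P ≠ 0 := by
    intro h2
    apply hyp
    rw [hval]
    show _ * g P = 0
    rw [h2, mul_zero]
  have h2 := hc ev (by rw [hevf]; exact hgP)
  rw [hevf, hevf, hevf] at h2
  have h3 : g (X 0) = aff y i := aeval_X _ _
  have h4 : g (X 1) = aff ((pmap T)^[n] y) j := aeval_X _ _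
  rw [h3, h4] at h2
  have h5 : lg F (eval y (hev Rr δ m P)) =
      m * lg F (y 0 * (pmap T)^[n] y 0) + lg F (g P) := by
    rw [hval, lgl_mul F (pow_ne_zero _ (mul_ne_zero hy0 hyn)) hgP,
      lgl_pow F (mul_ne_zero hy0 hyn)]
  rw [h5]
  have h6 := Pool.Agent.H8.ZA.ht_nonneg F ![aff y i, 0, 0]
  have h7 : (117 : ℝ) * dg Qb {u} ≤ dg Qb {φ} := by exact_mod_cast hdg
  have h8 : (1 : ℝ) ≤ dg Qb {u} := by exact_mod_cast hdg1
  have h9 : (0 : ℝ) < 9 * dg Qb {u} := by linarith
  have h10 : (12 * (9 * (dg Qb {u} : ℝ))) * F.ht ![aff y i, 0, 0] ≤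
      ((dg Qb {φ} : ℝ) - 9 * dg Qb {u}) * F.ht ![aff y i, 0, 0] :=
    mul_le_mul_of_nonneg_right (by linarith) h6
  have h11 : 12 * F.ht ![aff y i, 0, 0] + μ / (9 * dg Qb {u}) *
      (m * lg F (y 0 * (pmap T)^[n] y 0) + lg F (g P) - m * lg F (y 0 * (pmap T)^[n] y 0)) =
      (12 * (9 * (dg Qb {u} : ℝ)) * F.ht ![aff y i, 0, 0] + μ * lg F (g P)) /
        (9 * dg Qb {u}) := by
    field_simp
    ring
  have h12 : F.ht ![aff ((pmap T)^[n] y) j, 0, 0] + c / (9 * dg Qb {u}) =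
      (9 * dg Qb {u} * F.ht ![aff ((pmap T)^[n] y) j, 0, 0] + c) / (9 * dg Qb {u}) := by
    field_simp
  rw [h11, h12]
  exact div_le_div_of_nonneg_right (by linarith) h9.le

/-- algebraic functions are constant -/
theorem lgl_alg {K : Type} [Field K] [Algebra Qb K] (u : K) (h : IsAlgebraic Qb u) :
    ∃ a : Qb, algebraMap Qb K a = u := by
  have h1 : IsIntegral Qb u := h.isIntegral
  exact minpoly.mem_range_of_degree_eq_one Qb u
    (IsAlgClosed.degree_eq_one_of_irreducible Qb (minpoly.irreducible h1))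

theorem pf_LGL (hKCL : T_KCL) (hPBK : T_PBK) (hSLR : T_SLR) (hIDG : T_IDG) (hCTD : T_CTD) :
    T_LGL := by
  intro I T D θ Φ Δ R S S' hI hD hT hom hX0 hTI hP hΔ hdeg hind hS hS' hS0 hS0' hrel
  obtain ⟨L, _, _, π, hker, hfr, hext⟩ := rl1_setup I hI
  have hx0 : π (X 0) ≠ 0 := fun h0 => hX0 ((hker _).1 h0)
  have htr : Transcendental (Kx π) (π (X 0)) := by
    apply rl1_tr π hx0
    intro c hc
    exact hext (fun i => C c * X i) (rl1_hom_iff I hom c hc)
  obtain ⟨τ, hτ⟩ := hext T hTI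
  obtain ⟨τ₀, hτ₀⟩ := rl1_tau0 π hx0 T D hT τ hτ
  obtain ⟨hfin, hle⟩ := rl1_deg π hfr T τ hτ θ Φ Δ R hP (fun h0 => hΔ ((hker _).1 h0))
  have hT0 : π (T 0) ≠ 0 := by
    intro h0
    apply hX0
    rw [← hTI, aeval_X]
    exact (hker _).1 h0
  have hT0' : π (T 0) = π (X 0) ^ D * aeval (xi π) (T 0) := rl1_hom_val π hx0 _ D (hT 0)
  have hw : (⟨aeval (xi π) (T 0), rl1_aeval_mem π (T 0)⟩ : Kx π) ≠ 0 := by
    intro h0
    have h1 : aeval (xi π) (T 0) = 0 := congrArg (fun z : Kx π => (z : L)) h0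
    rw [h1, mul_zero] at hT0'
    exact hT0 hT0'
  have hτs : τ (π (X 0)) = π (X 0) ^ D * algebraMap (Kx π) L
      ⟨aeval (xi π) (T 0), rl1_aeval_mem π (T 0)⟩ := by
    rw [hτ, aeval_X]
    exact hT0'
  obtain ⟨hfin0, -⟩ := Pool.Agent.H60.TD.pf_SL1 Qb (Kx π) L τ₀ τ (π (X 0))
    ⟨aeval (xi π) (T 0), rl1_aeval_mem π (T 0)⟩ D hD htr (rl1_gen π hx0 hfr) hw
    (fun x => hτ₀ x) hτs hfin
  have hq : 2 ≤ Module.finrank τ₀.fieldRange (Kx π) := by
    have h1 := hIDG 4 Φ.natDegree Qb L π hfr T τ hτ hfin θ (by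
      intro g hg i
      rw [hker]
      exact hind g ((hker _).1 hg) i)
    have h2 := hSLR Qb (Kx π) L τ₀ τ (π (X 0))
      ⟨aeval (xi π) (T 0), rl1_aeval_mem π (T 0)⟩ D hD (rl1_gen π hx0 hfr) hw
      (fun x => hτ₀ x) hτs hfin0
    have h3 : D * 2 ≤ D * Module.finrank τ₀.fieldRange (Kx π) := by
      rw [mul_comm D 2]
      exact hdeg.trans (h1.trans h2)
    exact Nat.le_of_mul_le_mul_left h3 hD
  have htd := rl1_trdeg hCTD π hfr htr S S' ((hker _).2 hS) ((hker _).2 hS') hS0 hS0' hrel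
  have hcurve := rl1_curve (k := Qb) (K := Kx π) _ (Set.finite_range _) (rl1_Kgen π) htd
  -- the iterates
  have hit : ∀ n : ℕ, ∀ q, τ^[n] (π q) = π (aeval (it T n) q) := by
    intro n
    induction n with
    | zero =>
      intro q
      rw [it_zero, show (fun i => X i : Tup 4 Qb) = X from rfl, aeval_X_left_apply]
      rfl
    | succ n ih =>
      intro q
      rw [Function.iterate_succ_apply', ih, hτ, it_succ', aeval_comp]
  have hit0 : ∀ n : ℕ, ∀ z : Kx π, ((τ₀^[n] z : Kx π) : L) = τ^[n] (z : L) := by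
    intro n
    induction n with
    | zero => intro z; rfl
    | succ n ih =>
      intro z
      rw [Function.iterate_succ_apply, Function.iterate_succ_apply, ih, hτ₀]
  have hdn : ∀ n : ℕ, π (it T n 0) ≠ 0 := by
    intro n
    have h1 := hit n (X 0)
    rw [aeval_X] at h1
    rw [← h1]
    intro h2
    apply hx0
    have h3 : Function.Injective τ^[n] := (RingHom.injective τ.toRingHom).iterate n
    apply h3
    rw [h2]
    exact (Function.iterate_fixed (map_zero τ) n).symm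
  have hmulit : ∀ n : ℕ, ∀ a b : L, τ^[n] a * τ^[n] b = τ^[n] (a * b) := by
    intro n
    induction n with
    | zero => intro a b; rfl
    | succ n ih =>
      intro a b
      rw [Function.iterate_succ_apply', Function.iterate_succ_apply',
        Function.iterate_succ_apply', ← map_mul, ih]
  have hφ : ∀ n : ℕ, ∀ i : Fin 4, τ^[n] (xi π i) = π (it T n i) / π (it T n 0) := by
    intro n i
    rw [eq_div_iff (hdn n)]
    have h1 : π (it T n i) = τ^[n] (π (X i)) := by rw [hit, aeval_X]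
    have h2 : π (it T n 0) = τ^[n] (π (X 0)) := by rw [hit, aeval_X]
    rw [h1, h2, hmulit]
    congr 1
    unfold xi
    rw [div_mul_cancel₀ _ hx0]
  -- the coordinates
  have halgc : ∀ i : Fin 3, IsAlgebraic Qb (⟨xi π i.succ, xi_mem π _⟩ : Kx π) →
      ∀ (n : ℕ) (j : Fin 3), One I T n i j := by
    intro i hi n j
    obtain ⟨a, ha⟩ := lgl_alg _ hi
    refine lgl_const I hI T n i j a ?_
    rw [← hker, map_sub, map_mul]
    have h1 : xi π i.succ = algebraMap Qb L a := by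
      have h2 := congrArg (fun z : Kx π => (z : L)) ha
      exact h2.symm
    have h3 : π (C a) = algebraMap Qb L a := AlgHom.commutes π a
    rw [h3, ← h1]
    unfold xi
    rw [div_mul_cancel₀ _ hx0, sub_self]
  have hmain : ∃ (n : ℕ) (j : Fin 3), 1 ≤ n ∧ ∀ i, One I T n i j := by
    by_cases hall : ∀ i : Fin 3, IsAlgebraic Qb (⟨xi π i.succ, xi_mem π _⟩ : Kx π)
    · exact ⟨1, 0, le_rfl, fun i => halgc i (hall i) 1 0⟩
    · push Not at hall
      obtain ⟨j, hj⟩ := hall
      set uj : Kx π := ⟨xi π j.succ, xi_mem π _⟩ with huj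
      set B : ℕ := ∑ i : Fin 3, dg Qb {(⟨xi π i.succ, xi_mem π _⟩ : Kx π)} with hB
      refine ⟨117 * B + 1, j, by omega, fun i => ?_⟩
      by_cases hi : IsAlgebraic Qb (⟨xi π i.succ, xi_mem π _⟩ : Kx π)
      · exact halgc i hi _ j
      have hdgpos : ∀ y : Kx π, Transcendental Qb y → 1 ≤ dg Qb {y} := by
        intro y hy
        have h1 := lgl_fin (k := Qb) (K := Kx π) _ (Set.finite_range _) (rl1_Kgen π) htd y hy
        exact Module.finrank_pos
      have hphi : ((τ₀^[117 * B + 1] uj : Kx π) : L) =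
          π (it T (117 * B + 1) j.succ) / π (it T (117 * B + 1) 0) := by
        rw [hit0]
        exact hφ _ _
      refine lgl_one hKCL I T D hT π hker hx0 hcurve (117 * B + 1) i j (hdn _)
        (τ₀^[117 * B + 1] uj) hphi hi (lgl_tr τ₀ _ uj hj) (hdgpos _ hi) ?_
      have h1 := hPBK Qb (Kx π) τ₀ (117 * B + 1) {uj}
      rw [Set.image_singleton] at h1
      rw [h1]
      have h2 : dg Qb {(⟨xi π i.succ, xi_mem π _⟩ : Kx π)} ≤ B :=
        Finset.single_le_sum (f := fun i : Fin 3 =>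
          dg Qb {(⟨xi π i.succ, xi_mem π _⟩ : Kx π)}) (fun _ _ => Nat.zero_le _)
          (Finset.mem_univ i)
      have h3 : 117 * B + 1 < 2 ^ (117 * B + 1) := Nat.lt_two_pow_self
      have h4 : 2 ^ (117 * B + 1) ≤
          Module.finrank τ₀.fieldRange (Kx π) ^ (117 * B + 1) := Nat.pow_le_pow_left hq _
      have h5 := hdgpos uj hj
      calc 117 * dg Qb {(⟨xi π i.succ, xi_mem π _⟩ : Kx π)} ≤
            Module.finrank τ₀.fieldRange (Kx π) ^ (117 * B + 1) * 1 := by omega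
        _ ≤ _ := Nat.mul_le_mul_left _ h5
  obtain ⟨n, j, hn, hone⟩ := hmain
  choose p D' m' μ hph hpI hc using hone
  refine ⟨n, p, D', m', fun i => μ i / 3, hn, hph, hpI, ?_⟩
  intro K F
  choose c hcc using fun i => hc i K F
  refine ⟨(c 0 + c 1 + c 2) / 3, ?_⟩
  intro y hy hy0 hyn hyp
  have e0 := hcc 0 y hy hy0 hyn (hyp 0)
  have e1 := hcc 1 y hy hy0 hyn (hyp 1)
  have e2 := hcc 2 y hy hy0 hyn (hyp 2)
  have h1 := ht_le_sum F (aff y)
  have h2 := ht_coord F (aff ((pmap T)^[n] y)) j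
  rw [Fin.sum_univ_three]
  linarith

end Pool.Agent.H74.BKH
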